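import Mathlib

set_option autoImplicit false

namespace Pool.Agent.Results.MP_a93e77_co.Disproof

/-- the connection set -/
def S : Finset (ZMod 13) := {1, 2, 4, 9, 11, 12}

/-- a circulant graph on thirteen vertices -/
def G : SimpleGraph (ZMod 13) where
  Adj u v := v - u ∈ S
  symm := ⟨by decide +kernel⟩
  loopless := ⟨by decide +kernel⟩

instance : DecidableRel G.Adj := fun u v => inferInstanceAs (Decidable (v - u ∈ S))

lemma S_mul : ∀ x : ZMod 13, x ≠ 0 → (5 * x ∈ S ↔ x ∉ S) := by decide +kernel

/-- the antimorphism `x ↦ 5 x + c` -/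
def P (c : ZMod 13) : G ≃g Gᶜ where
  toFun x := 5 * x + c
  invFun y := 8 * (y - c)
  left_inv x := by
    have h : (8 * 5 : ZMod 13) = 1 := by decide
    linear_combination x * h
  right_inv y := by
    have h : (8 * 5 : ZMod 13) = 1 := by decide
    linear_combination (y - c) * h
  map_rel_iff' := by
    intro a b
    have h8 : (8 * 5 : ZMod 13) = 1 := by decide
    simp only [Equiv.coe_fn_mk, SimpleGraph.compl_adj]
    have e : (5 * b + c - (5 * a + c) : ZMod 13) = 5 * (b - a) := by ring
    show (5 * a + c ≠ 5 * b + c ∧ ¬ (5 * b + c - (5 * a + c) ∈ S)) ↔ b - a ∈ S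
    rw [e]
    by_cases hab : a = b
    · subst hab
      simp only [ne_eq, not_true_eq_false, false_and, sub_self, false_iff]
      decide
    · have hne : b - a ≠ 0 := sub_ne_zero.2 (fun h => hab h.symm)
      rw [S_mul _ hne, not_not]
      constructor
      · exact fun h => h.2
      · intro h
        refine ⟨fun h5 => hab ?_, h⟩
        linear_combination 8 * h5 - (a - b) * h8

/-- Main theorem: a regular self-complementary graph that is not strongly regular although every
vertex is fixed by an antimorphism and every edge joins consecutive vertices of a cycle of some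
antimorphism. -/
theorem result : ∃ (V : Type) (_ : Fintype V) (_ : DecidableEq V) (G : SimpleGraph V)
    (_ : DecidableRel G.Adj),
    (∃ d, G.IsRegularOfDegree d) ∧ Nonempty (G ≃g Gᶜ) ∧
    (∀ v : V, ∃ P : G ≃g Gᶜ, P v = v) ∧
    (∀ u v : V, G.Adj u v → ∃ P : G ≃g Gᶜ, P u = v ∨ P v = u) ∧
    ¬ ((∃ l : ℕ, ∀ u v : V, G.Adj u v → Fintype.card (G.commonNeighbors u v) = l) ∧
       (∃ m : ℕ, ∀ u v : V, u ≠ v → ¬ G.Adj u v → Fintype.card (G.commonNeighbors u v) = m)) := by
  refine ⟨ZMod 13, inferInstance, inferInstance, G, inferInstance, ⟨6, ?_⟩, ⟨P 0⟩, ?_, ?_, ?_⟩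
  · intro v
    revert v
    decide +kernel
  · intro v
    refine ⟨P (-4 * v), ?_⟩
    show 5 * v + -4 * v = v
    ring
  · intro u v _
    refine ⟨P (v - 5 * u), Or.inl ?_⟩
    show 5 * u + (v - 5 * u) = v
    ring
  · rintro ⟨⟨l, hl⟩, -⟩
    have h1 := hl 0 1 (by decide)
    have h2 := hl 0 4 (by decide)
    have : Fintype.card (G.commonNeighbors 0 1) ≠ Fintype.card (G.commonNeighbors 0 4) := by
      decide +kernel
    exact this (h1.trans h2.symm)

end Pool.Agent.Results.MP_a93e77_co.Disproof
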